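import Pool.Agent.Helper63.LP.Spec
import Pool.Agent.Helper68.LP.STA

/-!
# LP, part FARV
-/

set_option autoImplicit false

noncomputable section

namespace Pool.Agent.Helper68.LP.FARV

open Helper63.LP

theorem main : S_FARV := by
  intro n b hb hbn
  obtain ⟨η, hη, h⟩ := Pool.Agent.Helper68.LP.sta n b hb hbn
  refine ⟨η, hη, fun K a hK ha => ?_⟩
  refine le_trans (ENNReal.ofReal_le_ofReal ?_) (h K hK a ha)
  have h1 : 1 + η ≤ Real.exp η := by linarith [Real.add_one_le_exp η]
  have h2 : (0 : ℝ) ≤ ((n : ℝ) + 1) ^ (n + 1) / (n.factorial : ℝ) ^ 2 := by positivity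
  exact mul_le_mul_of_nonneg_right h1 h2

end Pool.Agent.Helper68.LP.FARV
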